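import Pool.Agent.ABC3.Stmts
import Pool.Agent.Helper17_ABCP.CPX

set_option autoImplicit false

/-!
# Row CPX of squad ABC3 (helper95), from the abstract existence theorem of helper17.
-/

namespace Pool.Agent.ABC3.H95

open Matrix

section sys
variable {K Q B : Type} [Field K] [AddCommGroup Q] [Module K Q] [Fintype B] [DecidableEq B]

/-- the algebra of the endomorphisms of degree `0` -/
def endA (S : Sys K Q B) : Subalgebra K (Matrix B B K) where
  carrier := {M | HasDeg S.deg 0 M ∧ Com S ⊤ M}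
  mul_mem' := by
    rintro M N ⟨hM, hM'⟩ ⟨hN, hN'⟩
    refine ⟨Pool.Agent.ABCP.H17.hasDeg_mul hM hN, fun x hx => ?_⟩
    rw [← mul_assoc, hM' x hx, mul_assoc, hN' x hx, mul_assoc]
  add_mem' := by
    rintro M N ⟨hM, hM'⟩ ⟨hN, hN'⟩
    refine ⟨fun s s' h => ?_, fun x hx => by rw [mul_add, add_mul, hM' x hx, hN' x hx]⟩
    by_cases h1 : M s s' = 0
    · exact hN s s' (fun h2 => h (by rw [Matrix.add_apply, h1, h2, add_zero]))
    · exact hM s s' h1
  algebraMap_mem' := by
    intro r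
    refine ⟨fun s s' h => ?_, fun x _ => (Algebra.commutes r (S.act x)).symm⟩
    rw [Matrix.algebraMap_matrix_apply] at h
    by_cases h1 : s = s'
    · rw [h1, add_zero]
    · rw [if_neg h1] at h
      exact absurd rfl h

theorem mem_endA (S : Sys K Q B) (M : Matrix B B K) :
    M ∈ endA S ↔ (HasDeg S.deg 0 M ∧ Com S ⊤ M) := Iff.rfl

end sys

theorem cpx : CPXStmt := by
  intro K Q B _ _ _ _ _ S hchi
  obtain ⟨ht1, hmul⟩ := hchi
  obtain ⟨e, he, heA, heI, hmin⟩ := Pool.Agent.ABCP.H17.cap_abs (endA S)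
    (fun f => f ∈ endA S ∧ Matrix.trace f = 0) ⟨(endA S).zero_mem, by simp⟩
    (fun f g hf hg => ⟨(endA S).add_mem hf.1 hg.1, by rw [Matrix.trace_add, hf.2, hg.2, add_zero]⟩)
    (fun f h hf hh => ⟨(endA S).mul_mem hh hf.1, by
      have := hmul h f hh.1 hh.2 hf.1.1 hf.1.2
      rw [hf.2, mul_zero] at this
      exact (mul_eq_zero.1 this).resolve_right ht1⟩)
    (fun f h hf hh => ⟨(endA S).mul_mem hf.1 hh, by
      have := hmul f h hf.1.1 hf.1.2 hh.1 hh.2
      rw [hf.2, zero_mul] at this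
      exact (mul_eq_zero.1 this).resolve_right ht1⟩)
  have hte : Matrix.trace e = Matrix.trace (1 : Matrix B B K) := by
    have := heI.2
    rw [Matrix.trace_sub, sub_eq_zero] at this
    exact this.symm
  refine ⟨e, he, heA.1, heA.2, by rw [hte]; exact ht1, fun f hf1 hf2 htf => ?_⟩
  have hfA : f ∈ endA S := ⟨hf1, hf2⟩
  set c : K := Matrix.trace (1 : Matrix B B K) / Matrix.trace f with hc
  have hcf : c • f ∈ endA S := (endA S).smul_mem hfA c
  obtain ⟨α, β, hα, hβ, h⟩ := hmin (c • f) hcf ⟨(endA S).sub_mem (endA S).one_mem hcf, by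
    rw [Matrix.trace_sub, Matrix.trace_smul, hc, smul_eq_mul, div_mul_cancel₀ _ htf, sub_self]⟩
  refine ⟨c • α, β, (endA S).smul_mem hα c, hβ, ?_⟩
  rw [← h]
  simp [Matrix.mul_smul, Matrix.smul_mul]

end Pool.Agent.ABC3.H95
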